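import Pool.Agent.TH567.PR.Chars

/-! The number of characters of each degree. -/

namespace Pool.Agent.TH520.GLC

open Matrix Filter

universe u v

variable {G : Type} [Group G] {m : ℕ}

/-- pairwise distinct characters -/
def Dist {Γ : Type} [Group Γ] {m : ℕ} {A : Type u} [CommRing A] {ι : Type}
    (ρ : ι → (Γ →* GL (Fin m) A)) : Prop :=
  ∀ i j, i ≠ j → ∃ g, (ρ i g).val.trace ≠ (ρ j g).val.trace

lemma trace_of {A : Type u} {B : Type v} [CommRing A] [CommRing B] (f : A →+* B)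
    {x : GL (Fin m) A} {y : GL (Fin m) B} (h : GeneralLinearGroup.map f x = y) :
    y.val.trace = f x.val.trace := by
  rw [← h, Matrix.trace, Matrix.trace, map_sum]
  rfl

/-- specialization to a field of finite type -/
lemma specialize (k₀ : Type) [CommRing k₀] {K : Type u} [Field K] [Algebra k₀ K]
    [hG : Group.FG G] {ι : Type} [Finite ι] (ρ : ι → (G →* GL (Fin m) K))
    (hne : Dist ρ) (e : k₀) (he : algebraMap k₀ K e ≠ 0) :
    ∃ (F : Type u) (_ : Field F) (_ : Algebra k₀ F), Algebra.FiniteType k₀ F ∧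
      algebraMap k₀ F e ≠ 0 ∧
      ∃ ρ' : ι → (G →* GL (Fin m) F), Dist ρ' := by
  classical
  obtain ⟨S, hS⟩ := Group.FG.out (G := G)
  have hexg : ∀ p : ι × ι, ∃ g, p.1 ≠ p.2 →
      (ρ p.1 g).val.trace ≠ (ρ p.2 g).val.trace := by
    intro p
    by_cases h : p.1 = p.2
    · exact ⟨1, fun h' => absurd h h'⟩
    · obtain ⟨g, hg⟩ := hne _ _ h
      exact ⟨g, fun _ => hg⟩
  choose g hg using hexg
  let X₁ : Set K := {(algebraMap k₀ K e)⁻¹}
  let X₂ : Set K := Set.range (fun p : ι × ι =>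
    ((ρ p.1 (g p)).val.trace - (ρ p.2 (g p)).val.trace)⁻¹)
  let X₃ : Set K := Set.range (fun q : ι × S × Fin m × Fin m =>
    (ρ q.1 q.2.1).val q.2.2.1 q.2.2.2)
  let X₄ : Set K := Set.range (fun q : ι × S × Fin m × Fin m =>
    ((ρ q.1 q.2.1)⁻¹).val q.2.2.1 q.2.2.2)
  let R : Subalgebra k₀ K := Algebra.adjoin k₀ (X₁ ∪ X₂ ∪ X₃ ∪ X₄)
  have hRfg : R.FG := Subalgebra.fg_def.2 ⟨X₁ ∪ X₂ ∪ X₃ ∪ X₄,
    (((Set.finite_singleton _).union (Set.finite_range _)).union (Set.finite_range _)).union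
      (Set.finite_range _), rfl⟩
  have hRft : Algebra.FiniteType k₀ R := (Subalgebra.fg_iff_finiteType R).1 hRfg
  have hsub : ∀ x ∈ X₁ ∪ X₂ ∪ X₃ ∪ X₄, x ∈ R := fun x hx => Algebra.subset_adjoin hx
  have hl : ∀ i, ∃ ρ₀ : G →* GL (Fin m) R,
      ∀ g, GeneralLinearGroup.map (R.val : R →+* K) (ρ₀ g) = ρ i g := fun i =>
    Pool.Agent.TH567.PR.lift_rep (R.val : R →+* K) Subtype.val_injective (ρ i) S hS
      (fun s hs a b => ⟨⟨⟨_, hsub _ (Or.inl (Or.inr ⟨(i, ⟨s, hs⟩, a, b), rfl⟩))⟩, rfl⟩,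
        ⟨⟨_, hsub _ (Or.inr ⟨(i, ⟨s, hs⟩, a, b), rfl⟩)⟩, rfl⟩⟩)
  choose ρ₀ hρ₀ using hl
  obtain ⟨M, hM⟩ := Ideal.exists_maximal R
  let iF : Field (R ⧸ M) := Ideal.Quotient.field M
  have hunit : ∀ x : R, (x : K) ≠ 0 → (x : K)⁻¹ ∈ R → (Ideal.Quotient.mk M) x ≠ 0 := by
    intro x hx hx' h0
    have h1 : x * ⟨_, hx'⟩ = 1 := Subtype.ext (mul_inv_cancel₀ hx)
    have h2 := congrArg (Ideal.Quotient.mk M) h1
    rw [map_mul, h0, zero_mul, map_one] at h2
    exact zero_ne_one h2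
  refine ⟨R ⧸ M, iF, Ideal.Quotient.algebra k₀, ?_, ?_,
    fun i => (GeneralLinearGroup.map (Ideal.Quotient.mk M)).comp (ρ₀ i), ?_⟩
  · exact Algebra.FiniteType.of_surjective (Ideal.Quotient.mkₐ k₀ M)
      (Ideal.Quotient.mkₐ_surjective k₀ M)
  · exact hunit (algebraMap k₀ R e) he (hsub _ (Or.inl (Or.inl (Or.inl rfl))))
  · intro i j hij
    refine ⟨g (i, j), fun h => ?_⟩
    have t1 : ∀ i, (((GeneralLinearGroup.map (Ideal.Quotient.mk M)).comp (ρ₀ i)) (g (i, j))).val.trace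
        = Ideal.Quotient.mk M (ρ₀ i (g (i, j))).val.trace := fun i => trace_of _ rfl
    have t2 : (((GeneralLinearGroup.map (Ideal.Quotient.mk M)).comp (ρ₀ j)) (g (i, j))).val.trace
        = Ideal.Quotient.mk M (ρ₀ j (g (i, j))).val.trace := trace_of _ rfl
    rw [t1, t2, ← sub_eq_zero, ← map_sub] at h
    have t3 := trace_of (R.val : R →+* K) (hρ₀ i (g (i, j)))
    have t4 := trace_of (R.val : R →+* K) (hρ₀ j (g (i, j)))
    have t5 : (((ρ₀ i (g (i, j))).val.trace - (ρ₀ j (g (i, j))).val.trace : R) : K) =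
        (ρ i (g (i, j))).val.trace - (ρ j (g (i, j))).val.trace := by
      rw [t3, t4]
      rfl
    refine hunit _ ?_ ?_ h
    · rw [t5, sub_ne_zero]
      exact hg (i, j) hij
    · rw [t5]
      exact hsub _ (Or.inl (Or.inl (Or.inr ⟨(i, j), rfl⟩)))

/-- the product of a family of representations -/
lemma exists_family' {F : ℕ → Type u} [∀ k, CommRing (F k)] (r : ∀ k, G →* GL (Fin m) (F k)) :
    ∃ σ : G →* GL (Fin m) (∀ k, F k), ∀ g k,
      GeneralLinearGroup.map (Pi.evalRingHom F k) (σ g) = r k g := by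
  let Ψ₀ : G →* Matrix (Fin m) (Fin m) (∀ k, F k) :=
    { toFun := fun g => Matrix.of fun i j => fun k => (r k g).val i j
      map_one' := by
        apply Matrix.ext
        intro i j
        funext k
        change (r k 1).val i j = (1 : Matrix (Fin m) (Fin m) (∀ k, F k)) i j k
        rw [map_one]
        change (1 : Matrix (Fin m) (Fin m) (F k)) i j = _
        rw [Matrix.one_apply, Matrix.one_apply]
        split_ifs <;> rfl
      map_mul' := fun a b => by
        apply Matrix.ext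
        intro i j
        funext k
        change (r k (a * b)).val i j = _
        rw [map_mul]
        change ((r k a).val * (r k b).val) i j = _
        rw [Matrix.mul_apply, Matrix.mul_apply, Finset.sum_apply]
        rfl }
  refine ⟨Ψ₀.toHomUnits, fun g k => ?_⟩
  apply Units.ext
  rfl

/-- characters are determined by finitely many values -/
lemma determination [hG : Group.FG G] {B : Type u} [CommRing B] (σ₁ σ₂ : G →* GL (Fin m) B) :
    ∃ W : Finset G, ∀ (F : Type u) [Field F] (ev : B →+* F),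
      (∀ w ∈ W, ev ((σ₁ w).val.trace) = ev ((σ₂ w).val.trace)) →
      ∀ g, ev ((σ₁ g).val.trace) = ev ((σ₂ g).val.trace) := by
  classical
  obtain ⟨R₁, hR₁, ρ₁, hρ₁⟩ := Pool.Agent.TH567.PR.fg_rep σ₁
  obtain ⟨R₂, hR₂, ρ₂, hρ₂⟩ := Pool.Agent.TH567.PR.fg_rep σ₂
  let R : Subalgebra ℤ B := R₁ ⊔ R₂
  have hR : Algebra.FiniteType ℤ R := (Subalgebra.fg_iff_finiteType R).1
    (((Subalgebra.fg_iff_finiteType R₁).2 hR₁).sup ((Subalgebra.fg_iff_finiteType R₂).2 hR₂))
  have hnoe : IsNoetherianRing R := Algebra.FiniteType.isNoetherianRing ℤ R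
  have htr1 : ∀ γ, (σ₁ γ).val.trace ∈ R := fun γ => by
    rw [← hρ₁ γ, Matrix.trace]
    exact sum_mem fun i _ => (le_sup_left : R₁ ≤ R) ((ρ₁ γ) i i).2
  have htr2 : ∀ γ, (σ₂ γ).val.trace ∈ R := fun γ => by
    rw [← hρ₂ γ, Matrix.trace]
    exact sum_mem fun i _ => (le_sup_right : R₂ ≤ R) ((ρ₂ γ) i i).2
  let δ : G → R := fun γ => ⟨_, htr1 γ⟩ - ⟨_, htr2 γ⟩
  have hfg : (Submodule.span R (Set.range δ)).FG := IsNoetherian.noetherian _
  obtain ⟨T', hT', hspan⟩ := (Submodule.fg_span_iff_fg_span_finset_subset _).1 hfg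
  choose! c hc using (fun x (hx : x ∈ T') => hT' hx)
  refine ⟨T'.image c, fun F _ ev h γ => ?_⟩
  let ev' : R →+* F := ev.comp (R.val : R →+* _)
  have hev : ∀ γ, ev' (δ γ) = ev ((σ₁ γ).val.trace) - ev ((σ₂ γ).val.trace) := by
    intro γ
    rw [← map_sub]
    rfl
  have hle : Submodule.span R (Set.range δ) ≤ RingHom.ker ev' := by
    rw [hspan, Submodule.span_le]
    intro x hx
    have h1 : x = δ (c x) := (hc x hx).symm
    rw [h1]
    change ev' (δ (c x)) = 0
    rw [hev, sub_eq_zero]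
    exact h _ (Finset.mem_image_of_mem c hx)
  have h2 : ev' (δ γ) = 0 := hle (Submodule.subset_span ⟨γ, rfl⟩)
  rw [hev, sub_eq_zero] at h2
  exact h2

/-- the ultraproduct -/
lemma ultra [hG : Group.FG G] {ι : Type}
    (hk : ∀ k : ℕ, ∃ (F : Type u) (_ : Field F), (∀ l : ℕ, 0 < l → l ≤ k → (l : F) ≠ 0) ∧
      ∃ ρ : ι → (G →* GL (Fin m) F), Dist ρ) :
    ∃ (K' : Type u) (_ : Field K'), CharZero K' ∧
      ∃ ρ : ι → (G →* GL (Fin m) K'), Dist ρ := by
  classical
  choose F hF hchar ρ hdist using hk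
  choose σ hσ using fun i => exists_family' (F := F) (fun k => ρ k i)
  let U : Ultrafilter ℕ := hyperfilter ℕ
  let I : Ideal (∀ k, F k) :=
    { carrier := {b | ∀ᶠ k in (U : Filter ℕ), b k = 0}
      add_mem' := fun {a b} ha hb => by
        filter_upwards [ha, hb] with k h1 h2
        rw [Pi.add_apply, h1, h2, add_zero]
      zero_mem' := Eventually.of_forall fun k => rfl
      smul_mem' := fun c b hb => by
        filter_upwards [hb] with k h1
        rw [smul_eq_mul, Pi.mul_apply, h1, mul_zero] }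
  have hmem : ∀ b, b ∈ I ↔ ∀ᶠ k in (U : Filter ℕ), b k = 0 := fun b => Iff.rfl
  have hI : I.IsPrime := by
    refine ⟨?_, ?_⟩
    · rw [Ne, Ideal.eq_top_iff_one, hmem]
      intro h
      obtain ⟨k, hk⟩ := h.exists
      exact one_ne_zero hk
    · intro a b hab
      rw [hmem] at hab
      rw [hmem, hmem, ← Ultrafilter.eventually_or]
      filter_upwards [hab] with k hk
      exact mul_eq_zero.1 hk
  let K' := FractionRing ((∀ k, F k) ⧸ I)
  let f : (∀ k, F k) →+* K' := (algebraMap ((∀ k, F k) ⧸ I) K').comp (Ideal.Quotient.mk I)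
  have hf : ∀ b, f b = 0 ↔ ∀ᶠ k in (U : Filter ℕ), b k = 0 := by
    intro b
    rw [← hmem, ← Ideal.Quotient.eq_zero_iff_mem]
    change algebraMap ((∀ k, F k) ⧸ I) K' (Ideal.Quotient.mk I b) = 0 ↔ _
    rw [FaithfulSMul.algebraMap_eq_zero_iff]
  refine ⟨K', inferInstance, ?_, fun i => (GeneralLinearGroup.map f).comp (σ i), ?_⟩
  · apply charZero_of_inj_zero
    intro l hl
    by_contra hl0
    have h1 : f (l : ∀ k, F k) = 0 := by rw [map_natCast, hl]
    rw [hf] at h1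
    have h2 : ∀ᶠ k in (U : Filter ℕ), l ≤ k :=
      Nat.hyperfilter_le_atTop (eventually_ge_atTop l)
    obtain ⟨k, hk1, hk2⟩ := (h1.and h2).exists
    exact hchar k l (Nat.pos_of_ne_zero hl0) hk2 hk1
  · intro i j hij
    obtain ⟨W, hW⟩ := determination (σ i) (σ j)
    have h1 : ∀ᶠ k in (U : Filter ℕ), ∃ w ∈ (W : Set G),
        (((σ i w).val.trace - (σ j w).val.trace : ∀ k, F k)) k ≠ 0 := by
      refine Eventually.of_forall fun k => ?_
      by_contra hcon
      push Not at hcon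
      obtain ⟨g, hg⟩ := hdist k i j hij
      apply hg
      have h2 := hW (F k) (Pi.evalRingHom F k) (fun w hw => by
        rw [← sub_eq_zero, ← map_sub]
        exact hcon w hw) g
      rw [trace_of _ (hσ i g k), trace_of _ (hσ j g k)]
      exact h2
    obtain ⟨w, hw, h2⟩ := (Ultrafilter.eventually_exists_mem_iff W.finite_toSet).1 h1
    refine ⟨w, fun h3 => ?_⟩
    have t1 : ((GeneralLinearGroup.map f).comp (σ i) w).val.trace = f (σ i w).val.trace :=
      trace_of _ rfl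
    have t2 : ((GeneralLinearGroup.map f).comp (σ j) w).val.trace = f (σ j w).val.trace :=
      trace_of _ rfl
    rw [t1, t2, ← sub_eq_zero, ← map_sub, hf] at h3
    obtain ⟨k, hk1, hk2⟩ := (h2.and h3).exists
    exact hk1 hk2

lemma transfer_dist {Γ₀ Λ : Type} [Group Γ₀] [Group Λ]
    (hquot : ∀ (Q : Type) [Group Q] [Finite Q],
      (∃ f : Λ →* Q, Function.Surjective f) → ∃ f : Γ₀ →* Q, Function.Surjective f)
    {K : Type u} [Field K] {ι : Type} [Finite ι]
    (ρ : ι → (Λ →* GL (Fin m) K)) (hfin : ∀ i, Finite (ρ i).range)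
    (hd : Dist ρ) : ∃ ρ' : ι → (Γ₀ →* GL (Fin m) K), Dist ρ' := by
  classical
  let Φ : Λ →* (ι → GL (Fin m) K) := MonoidHom.pi ρ
  have hΦ : Finite (Λ ⧸ Φ.ker) := by
    have h0 : Finite Φ.range := by
      have h1 : (Φ.range : Set (ι → GL (Fin m) K)) ⊆
          Set.pi Set.univ (fun i => ((ρ i).range : Set (GL (Fin m) K))) := by
        rintro _ ⟨l, rfl⟩ i _
        exact ⟨l, rfl⟩
      exact (Set.Finite.pi (fun i =>
        (show ((ρ i).range : Set (GL (Fin m) K)).Finite from hfin i))).subset h1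
    exact Finite.of_equiv _ (QuotientGroup.quotientKerEquivRange Φ).symm.toEquiv
  obtain ⟨f₀, hf₀⟩ := hquot (Λ ⧸ Φ.ker) ⟨QuotientGroup.mk' _, QuotientGroup.mk'_surjective _⟩
  let rb : ι → (Λ ⧸ Φ.ker →* GL (Fin m) K) := fun i =>
    QuotientGroup.lift Φ.ker (ρ i) (fun l hl => congrFun hl i)
  refine ⟨fun i => (rb i).comp f₀, fun i j hij => ?_⟩
  obtain ⟨l, hl⟩ := hd i j hij
  obtain ⟨γ, hγ⟩ := hf₀ (QuotientGroup.mk' _ l)
  refine ⟨γ, ?_⟩
  rw [MonoidHom.comp_apply, MonoidHom.comp_apply, hγ]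
  exact hl

/-- characteristic zero -/
theorem count_zero {Γ₀ Λ : Type} [Group Γ₀] [Group Λ] [Group.FG Γ₀] [Group.FG Λ]
    (hquot : ∀ (Q : Type) [Group Q] [Finite Q],
      (∃ f : Λ →* Q, Function.Surjective f) → ∃ f : Γ₀ →* Q, Function.Surjective f)
    (hpos : ∀ (K : Type u) [Field K] (c : ℕ), c ≠ 0 → (c : K) = 0 →
      ∀ ρ : Λ →* GL (Fin m) K, Finite ρ.range)
    (K : Type u) [Field K] [IsAlgClosed K] [CharZero K] {ι : Type} [Finite ι]
    (ρ : ι → (Λ →* GL (Fin m) K)) (hd : Dist ρ) :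
    ∃ ρ' : ι → (Γ₀ →* GL (Fin m) K), Dist ρ' := by
  obtain ⟨K', iK', hK'0, ρ₂, hd₂⟩ := ultra.{u} (G := Γ₀) (m := m) (ι := ι) (fun k => by
    obtain ⟨F, iF, iA, hft, he, ρ₃, hd₃⟩ := specialize ℤ ρ hd (k.factorial : ℤ)
      (by simpa using k.factorial_ne_zero)
    have hiA : iA = Ring.toIntAlgebra F := Subsingleton.elim _ _
    subst hiA
    have hFfin : Finite F := by
      have := Pool.Agent.TH567.PR.jac_int
      have := finite_of_finite_type_of_isJacobsonRing ℤ F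
      exact Pool.Agent.TH567.PR.finite_of_module_int F
    obtain ⟨c, hcp⟩ := CharP.exists F
    have hc : c ≠ 0 := by
      rintro rfl
      have : CharZero F := CharP.charP_to_charZero F
      exact not_finite F
    obtain ⟨ρ₅, hd₅⟩ := transfer_dist hquot ρ₃
      (fun i => hpos F c hc (CharP.cast_eq_zero F c) _) hd₃
    refine ⟨F, iF, ?_, ρ₅, hd₅⟩
    intro l hl hlk h1
    apply he
    obtain ⟨d, hd⟩ := Nat.dvd_factorial hl hlk
    rw [hd]
    push_cast
    rw [h1, zero_mul])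
  let iQ : Algebra ℚ K' := DivisionRing.toRatAlgebra
  obtain ⟨F, iF, iA, hft, he, ρ₃, hd₃⟩ := specialize ℚ ρ₂ hd₂ (1 : ℚ) (by simp)
  have hmf : Module.Finite ℚ F := finite_of_finite_type_of_isJacobsonRing ℚ F
  have halg : Algebra.IsAlgebraic ℚ F := Algebra.IsAlgebraic.of_finite ℚ F
  let φ : F →ₐ[ℚ] K := IsAlgClosed.lift
  refine ⟨fun i => (GeneralLinearGroup.map (φ : F →+* K)).comp (ρ₃ i), ?_⟩
  intro i j hij
  obtain ⟨g, hg⟩ := hd₃ i j hij
  refine ⟨g, fun h => hg ?_⟩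
  have t1 : ∀ i, ((GeneralLinearGroup.map (φ : F →+* K)).comp (ρ₃ i) g).val.trace =
      (φ : F →+* K) (ρ₃ i g).val.trace := fun i => trace_of _ rfl
  rw [t1, t1] at h
  exact (φ : F →+* K).injective h

/-- comparison of the numbers of characters of degree `m` -/
theorem count_le {Γ₀ Λ : Type} [Group Γ₀] [Group Λ] [Group.FG Γ₀] [Group.FG Λ]
    (hquot : ∀ (Q : Type) [Group Q] [Finite Q],
      (∃ f : Λ →* Q, Function.Surjective f) → ∃ f : Γ₀ →* Q, Function.Surjective f)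
    (hpos : ∀ (K : Type u) [Field K] (c : ℕ), c ≠ 0 → (c : K) = 0 →
      ∀ ρ : Λ →* GL (Fin m) K, Finite ρ.range)
    (K : Type u) [Field K] (hK : IsAlgClosed K ∨ ∃ c : ℕ, c ≠ 0 ∧ (c : K) = 0)
    (hfin : {χ : Λ → K | ∃ ρ : Λ →* GL (Fin m) K, ∀ l, χ l = (ρ l).val.trace}.Finite) :
    {χ : Λ → K | ∃ ρ : Λ →* GL (Fin m) K, ∀ l, χ l = (ρ l).val.trace}.encard ≤
      {χ : Γ₀ → K | ∃ ρ : Γ₀ →* GL (Fin m) K, ∀ l, χ l = (ρ l).val.trace}.encard := by
  classical
  set S := {χ : Λ → K | ∃ ρ : Λ →* GL (Fin m) K, ∀ l, χ l = (ρ l).val.trace} with hS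
  have hSf : Finite S := hfin
  obtain ⟨N, ⟨e⟩⟩ := Finite.exists_equiv_fin S
  choose r hr using (fun χ : S => χ.2)
  have hd : Dist (fun i : Fin N => r (e.symm i)) := by
    intro i j hij
    by_contra hcon
    push Not at hcon
    apply hij
    apply e.symm.injective
    apply Subtype.ext
    funext l
    rw [hr (e.symm i) l, hr (e.symm j) l]
    exact hcon l
  have hex : ∃ ρ' : Fin N → (Γ₀ →* GL (Fin m) K), Dist ρ' := by
    obtain ⟨c, hcp⟩ := CharP.exists K
    rcases Nat.eq_zero_or_pos c with rfl | hc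
    · have hK0 : CharZero K := CharP.charP_to_charZero K
      rcases hK with hK | ⟨c, hc, hcK⟩
      · exact count_zero hquot hpos K _ hd
      · exact absurd (Nat.cast_eq_zero.1 hcK) hc
    · exact transfer_dist hquot _ (fun i => hpos K c hc.ne' (CharP.cast_eq_zero K c) _) hd
  obtain ⟨ρ', hd'⟩ := hex
  refine Set.encard_le_encard_of_injOn
    (f := fun χ => if h : χ ∈ S then fun γ => (ρ' (e ⟨χ, h⟩) γ).val.trace else fun _ => χ 1) ?_ ?_
  · intro χ hχ
    simp only [dif_pos hχ]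
    exact ⟨ρ' (e ⟨χ, hχ⟩), fun l => rfl⟩
  · intro χ hχ χ' hχ' h
    simp only [dif_pos hχ, dif_pos hχ'] at h
    by_contra hne
    obtain ⟨γ, hγ⟩ := hd' (e ⟨χ, hχ⟩) (e ⟨χ', hχ'⟩) (fun h' => hne (by
      have := e.injective h'
      exact congrArg Subtype.val this))
    exact hγ (congrFun h γ)

end Pool.Agent.TH520.GLC
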